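import Pool.Agent.helper85.AQ.SpecB

/-!
# Project aq, row BCO: a normalised function is determined by its divisor up to a constant
-/

set_option autoImplicit false

namespace Pool.Agent.AQ

open Polynomial Pool.Agent.HC Pool.Agent.HC.SJ Pool.Agent.SJ Pool.Agent.GJ Pool.Agent.TK Pool.Agent.CM
open Pool.Agent.TQJ Pool.Agent.TQG
open Pool.Agent.FJ (VT Om chiO rf rs IsFrobO)
open Pool.Agent.TD (zK DvK bC mK IsPhiK Stab)
open scoped TensorProduct NumberField

noncomputable section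

theorem BCO_lt (l n s : ℕ) (hl : l.Prime) (μ : Fin (n + 1) → ℕ) (h0 : ∀ k, 0 < μ k) (h1 : ∀ k, μ k < l)
    (hs : 0 < s) (hsl : s < l) : l * ∑ k, s * μ k / l < s * ∑ k, μ k := by
  rw [Finset.mul_sum, Finset.mul_sum]
  refine Finset.sum_lt_sum_of_nonempty Finset.univ_nonempty fun k _ => ?_
  refine lt_of_le_of_ne (Nat.mul_div_le _ _) fun h => ?_
  have h2 : l ∣ s * μ k := Dvd.intro _ h
  rcases (Nat.Prime.dvd_mul hl).1 h2 with h3 | h3
  · exact absurd (Nat.le_of_dvd hs h3) (by omega)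
  · have := h1 k
    exact absurd (Nat.le_of_dvd (h0 k) h3) (by omega)

theorem BCO (hBE1 : BE1_stmt) (h5 : KA5_stmt) : BCO_stmt := by
  intro K _ _ l n _ _ μ a _ f f' S hf hf'
  have hl : l.Prime := Fact.out
  have hne : f ≠ 0 := by
    intro h0
    have h1 := (h5 K l n μ a).1 S
    rw [← hf.div, h0] at h1
    exact h1 (Ideal.span_singleton_eq_bot.2 rfl)
  have hspan : Ideal.span {f'} = Ideal.span {f} := by rw [hf'.div, hf.div]
  obtain ⟨u, hu⟩ := Ideal.span_singleton_eq_span_singleton.1 hspan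
  obtain ⟨c, hc, hn⟩ := hf.norm
  obtain ⟨c', hc', hn'⟩ := hf'.norm
  obtain ⟨P, hP⟩ : ∃ P : K[X], P = (S.map fun q => (X - C q.1.1 : K[X])).prod := ⟨_, rfl⟩
  have hPm : P.Monic := by
    rw [hP]
    exact monic_multiset_prod_of_monic _ _ fun q _ => monic_X_sub_C q.1.1
  rw [← hP] at hn hn'
  have hnu : Algebra.norm (BR K μ a) (u : CR K l μ a) = algebraMap K[X] (BR K μ a) (C (c / c')) := by
    have h1 : algebraMap K[X] (BR K μ a) (C c' * P) ≠ 0 := by
      intro h2
      have h3 := BR_inj K μ a (h2.trans (map_zero _).symm)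
      rcases mul_eq_zero.1 h3 with h4 | h4
      · exact hc' (C_eq_zero.1 h4)
      · exact hPm.ne_zero h4
    refine mul_left_cancel₀ h1 ?_
    rw [← hn', ← map_mul, hu, hn, hn', ← map_mul]
    refine congrArg _ ?_
    calc C c * P = C (c' * (c / c')) * P := by rw [mul_div_cancel₀ _ hc']
      _ = C c' * P * C (c / c') := by rw [C_mul]; ring
  have hNF : NFK (u : CR K l μ a) 0 := by
    refine ⟨?_, c / c', div_ne_zero hc hc', ?_⟩
    · rw [dvI, Multiset.map_zero, Multiset.prod_zero, Ideal.one_eq_top]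
      exact Ideal.span_singleton_eq_top.2 u.isUnit
    · rw [hnu, Multiset.map_zero, Multiset.prod_zero, mul_one]
  obtain ⟨γ, hE⟩ := hBE1 K l n μ a (u : CR K l μ a) 0 hNF
  have hz : ∀ s : Fin l, (s : ℕ) ≠ 0 → γ s = 0 := by
    intro s hs
    rcases hE.deg s with h1 | h1
    · exact h1
    · have h2 := BCO_lt l n s hl μ (Good.pos (K := K) (l := l) (μ := μ) (a := a))
        (Good.lt (K := K) (l := l) (μ := μ) (a := a)) (Nat.pos_of_ne_zero hs) s.2
      rw [Multiset.card_zero] at h1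
      omega
  obtain ⟨κ, hκ⟩ : ∃ κ : K, γ ⟨0, hl.pos⟩ = C κ := by
    rcases hE.deg ⟨0, hl.pos⟩ with h1 | h1
    · exact ⟨0, by rw [h1, C_0]⟩
    · refine ⟨_, eq_C_of_natDegree_eq_zero ?_⟩
      simp only [Multiset.card_zero, zero_mul, Nat.zero_div, Finset.sum_const_zero, mul_zero, add_zero,
        Nat.le_zero, mul_eq_zero] at h1
      exact h1.resolve_left hl.ne_zero
  have heq := hE.eq
  rw [Finset.sum_eq_single (⟨0, hl.pos⟩ : Fin l) (fun s _ hs => by
    rw [hz s (fun h => hs (Fin.ext h)), zero_mul, map_zero, zero_mul])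
    (fun h => absurd (Finset.mem_univ _) h), hκ] at heq
  have hfp : ∏ k, (X - C (a k)) ^ (μ k - (((⟨0, hl.pos⟩ : Fin l) : ℕ)) * μ k / l) = fp K μ a := by
    rw [fp]
    refine Finset.prod_congr rfl fun k _ => ?_
    show (X - C (a k)) ^ (μ k - 0 * μ k / l) = _
    rw [zero_mul, Nat.zero_div, Nat.sub_zero]
  rw [hfp] at heq
  have heq2 : (u : CR K l μ a) * CR.pol (fp K μ a) = algebraMap K (CR K l μ a) κ * CR.pol (fp K μ a) := by
    rw [heq, map_mul, CR.pol_C]
    show _ * (CR.y : CR K l μ a) ^ 0 = _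
    rw [pow_zero, mul_one]
  have hu2 : (u : CR K l μ a) = algebraMap K (CR K l μ a) κ := by
    have hunit : IsUnit (CR.pol (fp K μ a) : CR K l μ a) := CR.unit_f
    exact hunit.mul_right_cancel heq2
  refine ⟨κ, ?_, ?_⟩
  · intro h0
    rw [h0, map_zero] at hu2
    rw [hu2, mul_zero] at hu
    exact hne hu.symm
  · rw [← hu2, ← hu, mul_comm]

end

end Pool.Agent.AQ
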