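import Pool.Agent.helper85.AQ.SpecB

/-!
# Project aq, row BD1: normalised functions reduce
-/

set_option autoImplicit false

namespace Pool.Agent.AQ

open Polynomial Pool.Agent.HC Pool.Agent.HC.SJ Pool.Agent.SJ Pool.Agent.GJ Pool.Agent.TK Pool.Agent.CM
open Pool.Agent.TQJ Pool.Agent.TQG
open Pool.Agent.FJ (VT Om chiO rf rs IsFrobO)
open Pool.Agent.TD (zK DvK bC mK IsPhiK Stab)
open scoped TensorProduct NumberField

noncomputable section

theorem BD1_fp {A B : Type} [CommRing A] [CommRing B] {n : ℕ} {μ : Fin (n + 1) → ℕ}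
    {a : Fin (n + 1) → A} {b : Fin (n + 1) → B} (φ : A →+* B) (h : ∀ j, φ (a j) = b j) :
    (fp A μ a).map φ = fp B μ b := by
  rw [fp, fp, Polynomial.map_prod]
  refine Finset.prod_congr rfl fun j _ => ?_
  rw [Polynomial.map_pow, Polynomial.map_sub, map_X, map_C, h]

theorem BD1_fpmonic (A : Type) [CommRing A] {n : ℕ} (μ : Fin (n + 1) → ℕ) (a : Fin (n + 1) → A) :
    (fp A μ a).Monic :=
  monic_prod_of_monic _ _ fun j _ => (monic_X_sub_C (a j)).pow (μ j)

/-- the product of the `X - x_q` and its images -/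
theorem BD1_prod {A B : Type} [CommRing A] [CommRing B] {l n : ℕ} {μ : Fin (n + 1) → ℕ}
    {a : Fin (n + 1) → A} {b : Fin (n + 1) → B} (φ : A →+* B) (h : ∀ j, φ (a j) = b j)
    (S : Multiset (Pc A l μ a)) :
    ((S.map fun q => (X - C q.1.1 : A[X])).prod).map φ =
      ((S.map (mapPc φ h)).map fun q => (X - C q.1.1 : B[X])).prod := by
  rw [Polynomial.map_multiset_prod, Multiset.map_map, Multiset.map_map]
  congr 1
  refine Multiset.map_congr rfl fun q _ => ?_
  show ((X - C q.1.1 : A[X])).map φ = X - C (φ q.1.1)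
  rw [Polynomial.map_sub, map_X, map_C]

theorem BD1_norm_ne {F : Type} [Field F] {l n : ℕ} [Fact l.Prime] {μ : Fin (n + 1) → ℕ}
    {b : Fin (n + 1) → F} [Good F l μ b] (z : CR F l μ b) (hz : z ≠ 0) :
    Algebra.norm (BR F μ b) z ≠ 0 := by
  have hm : (gp F l μ b).Monic := gp_monic F l μ b
  have : Module.Free (BR F μ b) (CR F l μ b) :=
    Module.Free.of_basis (AdjoinRoot.powerBasis' hm).basis
  have : Module.Finite (BR F μ b) (CR F l μ b) := (AdjoinRoot.powerBasis' hm).finite
  intro h0
  exact hz (Algebra.norm_eq_zero_iff.mp h0)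

theorem BD1 (h1 : KB1_stmt) (h3 : KB3_stmt) (h4 : KB4_stmt) : BD1_stmt := by
  intro K _ _ O l n _ hlk μ a' a b _ _ h h' f S hf hne
  have hlK : NeZero (l : K) := by
    refine ⟨fun h0 => ?_⟩
    have e1 : (l : O) = 0 := by
      apply Subtype.ext
      have e2 : O.subtype (l : O) = (l : K) := map_natCast _ _
      have e3 : ((l : O) : K) = (l : K) := e2
      rw [e3, h0]
      rfl
    have e2 : rs O (l : O) = (l : rf O) := map_natCast _ _
    rw [e1, map_zero] at e2
    exact hlk.out e2.symm
  have hpos : ∀ j, 0 < μ j := Good.pos (K := K) (l := l) (μ := μ) (a := a)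
  obtain ⟨-, -, b3⟩ := h1 K O l n μ a' a b h h' hpos
  refine ⟨?_, ?_⟩
  · have e1 := h4 K O l n μ a' a b h h' f (S.map (mapPc O.subtype h)) hne hf.div
    have e2 : (S.map (mapPc O.subtype h)).filterMap (red O h h') = S.map (mapPc (rs O) h') := by
      rw [Multiset.filterMap_map]
      have e3 : (red O h h' ∘ mapPc O.subtype h : Pc O l μ a' → Option (Pc (rf O) l μ b)) =
          some ∘ mapPc (rs O) h' := by
        funext q
        exact b3 q
      rw [e3]
      exact congrFun (Multiset.filterMap_eq_map _) S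
    rw [e2] at e1
    exact e1
  · obtain ⟨c, hc, hnK⟩ := hf.norm
    obtain ⟨g, N, hg1, hg2⟩ := h3 K O l n μ a' a b h h' f
    set P0 : O[X] := (S.map fun q => (X - C q.1.1 : O[X])).prod * fp O μ a' ^ N with hP0
    have hmon : P0.Monic := by
      refine Monic.mul ?_ ((BD1_fpmonic O μ a').pow N)
      exact monic_multiset_prod_of_monic _ _ fun q _ => monic_X_sub_C q.1.1
    have hmapK : P0.map O.subtype =
        ((S.map (mapPc O.subtype h)).map fun q => (X - C q.1.1 : K[X])).prod * fp K μ a ^ N := by
      rw [hP0, Polynomial.map_mul, BD1_prod O.subtype h S, Polynomial.map_pow, BD1_fp O.subtype h]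
    have hmapk : P0.map (rs O) =
        ((S.map (mapPc (rs O) h')).map fun q => (X - C q.1.1 : (rf O)[X])).prod *
          fp (rf O) μ b ^ N := by
      rw [hP0, Polynomial.map_mul, BD1_prod (rs O) h' S, Polynomial.map_pow, BD1_fp (rs O) h']
    have hgK : g.map O.subtype = C c * P0.map O.subtype := by
      apply BR_inj K μ a
      rw [← hg1, hnK, ← map_mul, hmapK]
      congr 1
      ring
    have hcoef : ((g.coeff P0.natDegree : O) : K) = c := by
      have e1 : (g.map O.subtype).coeff P0.natDegree = c := by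
        rw [hgK, coeff_C_mul, coeff_map, hmon.coeff_natDegree, map_one, mul_one]
      rw [coeff_map] at e1
      exact e1
    set c' : O := g.coeff P0.natDegree with hc'
    have hgO : g = C c' * P0 := by
      have hinj : Function.Injective (Polynomial.map O.subtype) :=
        Polynomial.map_injective _ Subtype.val_injective
      apply hinj
      have e5 : (C c' * P0).map O.subtype = C (O.subtype c') * P0.map O.subtype := by
        rw [Polynomial.map_mul, map_C]
      have e6 : O.subtype c' = c := hcoef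
      rw [e5, e6]
      exact hgK
    have hnk : Algebra.norm (BR (rf O) μ b) (mp (rs O) h' f : CR (rf O) l μ b) =
        algebraMap (rf O)[X] (BR (rf O) μ b) (C (rs O c') *
          ((S.map (mapPc (rs O) h')).map fun q => (X - C q.1.1 : (rf O)[X])).prod) := by
      have hne2 : algebraMap (rf O)[X] (BR (rf O) μ b) (fp (rf O) μ b ^ N) ≠ 0 := by
        intro h5
        exact pow_ne_zero _ (fp_ne _ μ b) (BR_inj _ μ b (h5.trans (map_zero _).symm))
      refine mul_right_cancel₀ hne2 ?_
      rw [hg2, hgO, Polynomial.map_mul, map_C, hmapk, ← map_mul]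
      congr 1
      ring
    refine ⟨rs O c', ?_, hnk⟩
    intro h0
    rw [h0, C_0, zero_mul, map_zero] at hnk
    exact BD1_norm_ne _ hne hnk

end

end Pool.Agent.AQ
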