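import Pool.Agent.helper85.AQ.SpecB

/-! # Row ta:BD2 (MP_3703a7_ag) -/

set_option autoImplicit false

namespace Pool.Agent.AQ

open Polynomial Pool.Agent.HC Pool.Agent.HC.SJ Pool.Agent.SJ Pool.Agent.GJ Pool.Agent.TK Pool.Agent.CM
open Pool.Agent.TQJ Pool.Agent.TQG
open Pool.Agent.FJ (VT Om chiO rf rs IsFrobO)
open Pool.Agent.TD (zK DvK bC mK IsPhiK Stab)
open scoped TensorProduct NumberField

noncomputable section

/-- the value as a quotient of two elements of the base ring -/
theorem BD2_val (h1 : YA1_stmt) {A F : Type} [CommRing A] [Field F] (φ : A →+* F) {l n : ℕ} [NeZero l]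
    {μ : Fin (n + 1) → ℕ} {a : Fin (n + 1) → A} {b : Fin (n + 1) → F} (h : ∀ j, φ (a j) = b j)
    (f g : CR A l μ a) (S T : Multiset (Pc A l μ a)) :
    hvK (mp φ h f : CR F l μ b) (mp φ h g) (S.map (mapPc φ h)) (T.map (mapPc φ h)) =
      φ ((S.map fun q => ev q f).prod * (T.map fun q => ev q g).prod) /
        φ ((S.map fun q => ev q g).prod * (T.map fun q => ev q f).prod) := by
  have h3 := (h1 A F φ l n μ a b h).2.2
  have key : ∀ R : Multiset (Pc A l μ a),
      ((R.map (mapPc φ h)).map fun q => ev q (mp φ h f : CR F l μ b) / ev q (mp φ h g)).prod =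
        φ ((R.map fun q => ev q f).prod) / φ ((R.map fun q => ev q g).prod) := by
    intro R
    rw [Multiset.map_map, map_multiset_prod, map_multiset_prod, Multiset.map_map, Multiset.map_map,
      ← Multiset.prod_map_div]
    apply congrArg Multiset.prod
    apply Multiset.map_congr rfl
    intro q _
    simp only [Function.comp_apply]
    rw [h3, h3]
  unfold hvK
  rw [key S, key T, div_div_div_eq, map_mul, map_mul]

theorem BD2 (h1 : YA1_stmt) (h5 : KA5_stmt) (hF1 : FJ.B1_stmt) : BD2_stmt := by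
  intro K _ _ O l n _ _ μ a' a b _ _ h h' f g S T U U' hU hU' hne
  have : NeZero l := ⟨(Fact.out : l.Prime).ne_zero⟩
  have : IsAlgClosed (rf O) := (hF1 K O).1
  have h3 := (h1 O (rf O) (rs O) l n μ a' b h').2.2
  have hk := (h5 (rf O) l n μ b).2.2.2.1
  have hunit : ∀ (w : CR O l μ a') (W : Multiset (Pc (rf O) l μ b)),
      NFK (mp (rs O) h' w : CR (rf O) l μ b) W → ∀ q : Pc O l μ a',
      (∀ q' ∈ W, rs O q.1.1 ≠ q'.1.1) → IsUnit (ev q w) := by
    intro w W hW q hq
    by_contra hn
    have h0 : rs O (ev q w) = 0 := by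
      rw [IsLocalRing.residue_eq_zero_iff]
      exact (IsLocalRing.mem_maximalIdeal _).2 hn
    rw [← h3] at h0
    have hmem : (mp (rs O) h' w : CR (rf O) l μ b) ∈ ptI (mapPc (rs O) h' q) := h0
    have hle : dvI W ≤ dvI {mapPc (rs O) h' q} := by
      rw [← hW.div, Ideal.span_singleton_le_iff_mem]
      simpa [dvI] using hmem
    have hin := (hk _ _).1 hle
    rw [Multiset.singleton_le] at hin
    exact hq _ hin rfl
  have huf : ∀ q ∈ S + T, IsUnit (ev q f) := fun q hq =>
    hunit f U hU q fun q' hq' => hne q hq q' (Multiset.mem_add.2 (Or.inl hq'))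
  have hug : ∀ q ∈ S + T, IsUnit (ev q g) := fun q hq =>
    hunit g U' hU' q fun q' hq' => hne q hq q' (Multiset.mem_add.2 (Or.inr hq'))
  have hprod : ∀ (w : CR O l μ a') (R : Multiset (Pc O l μ a')), (∀ q ∈ R, IsUnit (ev q w)) →
      IsUnit (R.map fun q => ev q w).prod := by
    intro w R hR
    apply Multiset.prod_induction (fun x => IsUnit x) _ (fun _ _ ha hb => ha.mul hb) isUnit_one
    intro x hx
    obtain ⟨q, hq, rfl⟩ := Multiset.mem_map.1 hx
    exact hR q hq
  have hA : IsUnit ((S.map fun q => ev q f).prod * (T.map fun q => ev q g).prod) :=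
    (hprod f S fun q hq => huf q (Multiset.mem_add.2 (Or.inl hq))).mul
      (hprod g T fun q hq => hug q (Multiset.mem_add.2 (Or.inr hq)))
  have hB : IsUnit ((S.map fun q => ev q g).prod * (T.map fun q => ev q f).prod) :=
    (hprod g S fun q hq => hug q (Multiset.mem_add.2 (Or.inl hq))).mul
      (hprod f T fun q hq => huf q (Multiset.mem_add.2 (Or.inr hq)))
  obtain ⟨B, hBe⟩ := hB
  have hgen : ∀ {F : Type} [Field F] (φ : O →+* F),
      φ ((S.map fun q => ev q f).prod * (T.map fun q => ev q g).prod * ((B⁻¹ : Oˣ) : O)) =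
        φ ((S.map fun q => ev q f).prod * (T.map fun q => ev q g).prod) /
          φ ((S.map fun q => ev q g).prod * (T.map fun q => ev q f).prod) := by
    intro F _ φ
    have hne0 : φ (B : O) ≠ 0 := (B.isUnit.map φ).ne_zero
    have hinv : φ (B : O) * φ ((B⁻¹ : Oˣ) : O) = 1 := by
      rw [← map_mul, Units.mul_inv, map_one]
    rw [← hBe, map_mul _ _ ((B⁻¹ : Oˣ) : O), eq_div_iff hne0, mul_assoc, mul_comm (φ ((B⁻¹ : Oˣ) : O)), hinv, mul_one]
  refine ⟨(S.map fun q => ev q f).prod * (T.map fun q => ev q g).prod * ((B⁻¹ : Oˣ) : O),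
    hA.mul (B⁻¹).isUnit, ?_, ?_⟩
  · rw [BD2_val h1 O.subtype h f g S T]
    exact hgen O.subtype
  · rw [BD2_val h1 (rs O) h' f g S T]
    exact hgen (rs O)

end

end Pool.Agent.AQ
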