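import Pool.Agent.helper85.AQ.SpecB
import Pool.Agent.helper28.GJ.R7
import Pool.Agent.helper48.GJ.R6

/-!
# Project aq, row BE1: the expansion of a normalised function
-/

set_option autoImplicit false

namespace Pool.Agent.AQ

open Polynomial Pool.Agent.HC Pool.Agent.HC.SJ Pool.Agent.SJ Pool.Agent.GJ Pool.Agent.TK Pool.Agent.CM
open Pool.Agent.TQJ Pool.Agent.TQG
open Pool.Agent.FJ (VT Om chiO rf rs IsFrobO)
open Pool.Agent.TD (zK DvK bC mK IsPhiK Stab)
open scoped TensorProduct NumberField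

noncomputable section

section val

variable {K : Type} [Field K] {l : ℕ} [Fact l.Prime] {n : ℕ} {μ : Fin (n + 1) → ℕ}
  {a : Fin (n + 1) → K} [Good K l μ a] {v : CR K l μ a → ℤ} {α : Fin (n + 1) → ℤ} {β : ℤ}

theorem BE1_nm (h : IsV v α β) (s : rootsOfUnity l K) (z : CR K l μ a) (hz : z ≠ 0) :
    v (nm s z) = l * v z := by
  have h1 : ∀ i : ℕ, (tau s)^[i] z ≠ 0 ∧ v ((tau s)^[i] z) = v z := by
    intro i
    induction i with
    | zero => exact ⟨hz, rfl⟩
    | succ i ih =>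
      rw [Function.iterate_succ_apply']
      refine ⟨?_, ?_⟩
      · rw [Ne, map_eq_zero_iff _ (tau s).injective]
        exact ih.1
      · have h2 : v (tau s ((tau s)^[i] z)) = v ((tau s)^[i] z) := h.aut _ _ s _
        rw [h2, ih.2]
  rw [nm, R7_prod h (Finset.range l) (fun i => (tau s)^[i] z) fun i _ => (h1 i).1,
    Finset.sum_congr rfl fun i _ => (h1 i).2, Finset.sum_const, Finset.card_range, nsmul_eq_mul]

end val

/-- the values of a normalised function -/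
theorem BE1_vals (hR4 : GJ.R4_stmt) (hR5 : GJ.R5_stmt) (hYD0 : YD0_stmt) (h4 : YA4_stmt)
    {K : Type} [Field K] [IsAlgClosed K] {l n : ℕ} [Fact l.Prime] [NeZero (l : K)]
    {μ : Fin (n + 1) → ℕ} {a : Fin (n + 1) → K} [Good K l μ a] (z : CR K l μ a) (S : Multiset (Pc K l μ a))
    (hz : NFK z S) : z ≠ 0 ∧ ∃ (v : Fin (n + 1) → CR K l μ a → ℤ) (vi : CR K l μ a → ℤ),
      (∀ k, IsV (v k) (fun j => if j = k then (l : ℤ) else 0) (μ k)) ∧
      IsV vi (fun _ => -(l : ℤ)) (-((∑ j, μ j : ℕ) : ℤ)) ∧ (∀ k, v k z = 0) ∧ vi z = -(Multiset.card S : ℤ) := by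
  classical
  have hlp : l.Prime := Fact.out
  have : NeZero l := ⟨hlp.ne_zero⟩
  obtain ⟨ζ, hζ⟩ : ∃ ζ : K, IsPrimitiveRoot ζ l := HasEnoughRootsOfUnity.exists_primitiveRoot K l
  set s : rootsOfUnity l K := hζ.toRootsOfUnity with hs
  have hsζ : ((s : Kˣ) : K) = ζ := hζ.val_toRootsOfUnity_coe
  have hprim : Prim s := by
    show IsPrimitiveRoot ((s : Kˣ) : K) l
    rw [hsζ]; exact hζ
  obtain ⟨c, hc, hn⟩ := hz.norm
  obtain ⟨P, hP⟩ : ∃ P : K[X], P = C c * (S.map fun q => (X - C q.1.1 : K[X])).prod := ⟨_, rfl⟩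
  rw [← hP] at hn
  have hPm : (S.map fun q => (X - C q.1.1 : K[X])).prod.Monic :=
    monic_multiset_prod_of_monic _ _ fun q _ => monic_X_sub_C q.1.1
  have hP0 : P ≠ 0 := by
    rw [hP]
    exact mul_ne_zero (C_ne_zero.2 hc) hPm.ne_zero
  have hnm : nm s z = CR.pol P := by
    rw [← hYD0 K l n μ a s hprim z, hn]
    rfl
  have hz0 : z ≠ 0 := by
    intro h0
    rw [h0] at hn
    have h1 : Algebra.norm (BR K μ a) (0 : CR K l μ a) = 0 := by
      have hm : (gp K l μ a).Monic := gp_monic K l μ a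
      have : Module.Free (BR K μ a) (CR K l μ a) :=
        Module.Free.of_basis (AdjoinRoot.powerBasis' hm).basis
      have : Module.Finite (BR K μ a) (CR K l μ a) := (AdjoinRoot.powerBasis' hm).finite
      exact Algebra.norm_eq_zero_iff.mpr rfl
    rw [h1] at hn
    exact hP0 (BR_inj K μ a (hn.symm.trans (map_zero _).symm))
  have hlz : (l : ℤ) ≠ 0 := by exact_mod_cast hlp.ne_zero
  choose v lc w0 hL using fun k => hR4 K l n μ a k
  obtain ⟨vi, hvi⟩ := hR5 K l n μ a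
  refine ⟨hz0, v, vi, fun k => (hL k).val, hvi, ?_, ?_⟩
  · intro k
    have h1 := BE1_nm (hL k).val s z hz0
    rw [hnm, R6_vk k (hL k).val P hP0] at h1
    have h2 : P.rootMultiplicity (a k) = 0 := by
      rw [rootMultiplicity_eq_zero_iff]
      intro h3
      exfalso
      rw [IsRoot, hP, eval_mul, eval_C, eval_multiset_prod] at h3
      rcases mul_eq_zero.1 h3 with h5 | h5
      · exact hc h5
      · rw [Multiset.prod_eq_zero_iff, Multiset.mem_map] at h5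
        obtain ⟨p, hp, hp2⟩ := h5
        obtain ⟨q, hq, rfl⟩ := Multiset.mem_map.1 hp
        rw [eval_sub, eval_X, eval_C, sub_eq_zero] at hp2
        exact ((h4 K l n μ a).2 q).1 k hp2.symm
    rw [h2, Nat.cast_zero, mul_zero] at h1
    rcases mul_eq_zero.1 h1.symm with h6 | h6
    · exact absurd h6 hlz
    · exact h6
  · have h1 := BE1_nm hvi s z hz0
    have h2 : P.natDegree = Multiset.card S := by
      rw [hP, natDegree_C_mul hc, natDegree_multiset_prod_of_monic]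
      · rw [Multiset.map_map]
        simp
      · intro f hf
        obtain ⟨q, -, rfl⟩ := Multiset.mem_map.1 hf
        exact monic_X_sub_C _
    rw [hnm, R6_vi hvi P hP0, h2] at h1
    have h3 : (l : ℤ) * (vi z + (Multiset.card S : ℤ)) = 0 := by
      rw [mul_add, ← h1]
      ring
    rcases mul_eq_zero.1 h3 with h6 | h6
    · exact absurd h6 hlz
    · omega

/-- one coefficient -/
theorem BE1_one {K : Type} [Field K] [IsAlgClosed K] {l n : ℕ} [Fact l.Prime]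
    {μ : Fin (n + 1) → ℕ} {a : Fin (n + 1) → K} [Good K l μ a]
    (v : Fin (n + 1) → CR K l μ a → ℤ) (vi : CR K l μ a → ℤ)
    (hv : ∀ k, IsV (v k) (fun j => if j = k then (l : ℤ) else 0) (μ k))
    (hvi : IsV vi (fun _ => -(l : ℤ)) (-((∑ j, μ j : ℕ) : ℤ))) (s : ℕ) (hs : s < l) (D : ℕ)
    (g : BR K μ a) (hg : g ≠ 0) (h1 : ∀ k, 0 ≤ v k (ofB g : CR K l μ a) + s * (μ k : ℕ))
    (h2 : -(D : ℤ) ≤ vi (ofB g : CR K l μ a) - s * ((∑ j, μ j : ℕ) : ℤ)) :
    ∃ γ : K[X], g * algebraMap K[X] (BR K μ a) (fp K μ a) =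
        algebraMap K[X] (BR K μ a) (γ * ∏ k, (X - C (a k)) ^ (μ k - s * μ k / l)) ∧
      l * γ.natDegree + s * ∑ k, μ k ≤ D + l * ∑ k, s * μ k / l := by
  have hlp : l.Prime := Fact.out
  obtain ⟨N, p, hp⟩ : ∃ (N : ℕ) (p : K[X]), g * algebraMap K[X] (BR K μ a) (fp K μ a ^ (N + 1)) =
      algebraMap K[X] (BR K μ a) p := by
    obtain ⟨N, p, hp⟩ := IsLocalization.Away.surj (S := BR K μ a) (fp K μ a) g
    refine ⟨N, p * fp K μ a, ?_⟩
    rw [map_mul, ← hp, map_pow, pow_succ]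
    ring
  have hB0 : ∀ q : K[X], q ≠ 0 → algebraMap K[X] (BR K μ a) q ≠ 0 := fun q hq h =>
    hq (BR_inj K μ a (h.trans (map_zero _).symm))
  have hp0 : p ≠ 0 := by
    intro h
    rw [h, map_zero] at hp
    rcases mul_eq_zero.1 hp with h3 | h3
    · exact hg h3
    · exact hB0 _ (pow_ne_zero _ (fp_ne K μ a)) h3
  have hofB : (ofB g : CR K l μ a) ≠ 0 := by
    rw [Ne, map_eq_zero_iff _ R7_ofB_inj]
    exact hg
  have hpolf : (CR.pol (fp K μ a ^ (N + 1)) : CR K l μ a) ≠ 0 := R6_pol_ne (pow_ne_zero _ (fp_ne K μ a))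
  have hCR : (ofB g : CR K l μ a) * CR.pol (fp K μ a ^ (N + 1)) = CR.pol p := by
    have h3 := congrArg (fun t => (ofB t : CR K l μ a)) hp
    simp only [map_mul] at h3
    exact h3
  have hfk : ∀ k, v k (ofB g : CR K l μ a) = l * ((p.rootMultiplicity (a k) : ℤ) - (N + 1) * (μ k : ℕ)) := by
    intro k
    have h3 := congrArg (v k) hCR
    rw [(hv k).mul _ _ hofB hpolf, R6_vk k (hv k) _ (pow_ne_zero _ (fp_ne K μ a)), R6_vk k (hv k) _ hp0] at h3
    have h5 : (fp K μ a ^ (N + 1)).rootMultiplicity (a k) = (N + 1) * μ k := by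
      rw [← rootMult (l := l) (μ := μ) (a := a) k]
      classical
      rw [← count_roots, ← count_roots, roots_pow, Multiset.count_nsmul]
    rw [h5] at h3
    push_cast at h3
    linear_combination h3
  have hfi : vi (ofB g : CR K l μ a) = -(l * ((p.natDegree : ℤ) - (N + 1) * ((∑ j, μ j : ℕ) : ℤ))) := by
    have h3 := congrArg vi hCR
    rw [hvi.mul _ _ hofB hpolf, R6_vi hvi _ (pow_ne_zero _ (fp_ne K μ a)), R6_vi hvi _ hp0] at h3
    have h5 : (fp K μ a ^ (N + 1)).natDegree = (N + 1) * ∑ j, μ j := by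
      rw [natDegree_pow, fp, natDegree_prod_of_monic _ _ fun j _ => (monic_X_sub_C (a j)).pow (μ j)]
      refine congrArg _ (Finset.sum_congr rfl fun j _ => ?_)
      rw [natDegree_pow, natDegree_X_sub_C, mul_one]
    rw [h5] at h3
    push_cast at h3 ⊢
    linear_combination h3
  have hle : ∀ k, s * μ k / l ≤ μ k := fun k => by
    apply Nat.div_le_of_le_mul
    exact Nat.mul_le_mul_right _ hs.le
  have hmul : ∀ k, (N + 1) * μ k - s * μ k / l ≤ p.rootMultiplicity (a k) := by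
    intro k
    have h3 := h1 k
    rw [hfk k] at h3
    rw [Nat.sub_le_iff_le_add]
    by_contra hlt
    rw [not_le] at hlt
    have h6 : s * μ k / l < (N + 1) * μ k - p.rootMultiplicity (a k) := by omega
    rw [Nat.div_lt_iff_lt_mul hlp.pos] at h6
    have h7 : p.rootMultiplicity (a k) ≤ (N + 1) * μ k := (lt_of_le_of_lt (Nat.le_add_right _ _) hlt).le
    have h8 : ((s * μ k : ℕ) : ℤ) < (((N + 1) * μ k - p.rootMultiplicity (a k)) * l : ℕ) := by exact_mod_cast h6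
    push_cast [Nat.cast_sub h7] at h8
    nlinarith
  obtain ⟨γ, hγ⟩ := R6_dvd a (Good.inj (K := K) (l := l) (μ := μ) (a := a)) p
    (fun k => (N + 1) * μ k - s * μ k / l)
    (fun k => (pow_dvd_pow _ (hmul k)).trans (pow_rootMultiplicity_dvd p (a k)))
  have hγ0 : γ ≠ 0 := by
    intro h
    rw [h, mul_zero] at hγ
    exact hp0 hγ
  have hprod : ∏ k, (X - C (a k)) ^ ((N + 1) * μ k - s * μ k / l) =
      fp K μ a ^ N * ∏ k, (X - C (a k)) ^ (μ k - s * μ k / l) := by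
    rw [fp, ← Finset.prod_pow, ← Finset.prod_mul_distrib]
    refine Finset.prod_congr rfl fun k _ => ?_
    rw [← pow_mul, ← pow_add]
    refine congrArg _ ?_
    have := hle k
    rw [Nat.add_mul, one_mul, mul_comm (μ k) N]
    omega
  rw [hprod] at hγ
  refine ⟨γ, ?_, ?_⟩
  · have h3 : algebraMap K[X] (BR K μ a) (fp K μ a ^ N) ≠ 0 := hB0 _ (pow_ne_zero _ (fp_ne K μ a))
    refine mul_left_cancel₀ h3 ?_
    rw [← map_mul, show fp K μ a ^ N * (γ * ∏ k, (X - C (a k)) ^ (μ k - s * μ k / l)) = p from by rw [hγ]; ring,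
      ← hp, pow_succ, map_mul]
    ring
  · have hdeg : p.natDegree + ∑ k, s * μ k / l = (N + 1) * ∑ k, μ k + γ.natDegree := by
      have h3 : p.natDegree = N * ∑ k, μ k + ∑ k, (μ k - s * μ k / l) + γ.natDegree := by
        rw [hγ, natDegree_mul (mul_ne_zero (pow_ne_zero _ (fp_ne K μ a)) (Finset.prod_ne_zero_iff.2 fun k _ =>
          pow_ne_zero _ (X_sub_C_ne_zero _))) hγ0, natDegree_mul (pow_ne_zero _ (fp_ne K μ a))
          (Finset.prod_ne_zero_iff.2 fun k _ => pow_ne_zero _ (X_sub_C_ne_zero _)), natDegree_pow, fp,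
          natDegree_prod_of_monic _ _ fun j _ => (monic_X_sub_C (a j)).pow (μ j),
          natDegree_prod_of_monic _ _ fun j _ => (monic_X_sub_C (a j)).pow _]
        simp only [natDegree_pow, natDegree_X_sub_C, mul_one]
      have h4 : ∑ k, (μ k - s * μ k / l) + ∑ k, s * μ k / l = ∑ k, μ k := by
        rw [← Finset.sum_add_distrib]
        exact Finset.sum_congr rfl fun k _ => Nat.sub_add_cancel (hle k)
      rw [h3]
      calc N * ∑ k, μ k + ∑ k, (μ k - s * μ k / l) + γ.natDegree + ∑ k, s * μ k / l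
          = N * ∑ k, μ k + (∑ k, (μ k - s * μ k / l) + ∑ k, s * μ k / l) + γ.natDegree := by ring
        _ = (N + 1) * ∑ k, μ k + γ.natDegree := by rw [h4]; ring
    have h5 : (p.natDegree : ℤ) - (N + 1) * ((∑ j, μ j : ℕ) : ℤ) = (γ.natDegree : ℤ) - ((∑ k, s * μ k / l : ℕ) : ℤ) := by
      have h6 : ((p.natDegree + ∑ k, s * μ k / l : ℕ) : ℤ) = (((N + 1) * ∑ k, μ k + γ.natDegree : ℕ) : ℤ) := by
        rw [hdeg]
      push_cast at h6 ⊢
      linear_combination h6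
    rw [hfi, h5] at h2
    have h7 : (l : ℤ) * γ.natDegree + s * ((∑ k, μ k : ℕ) : ℤ) ≤ D + l * ((∑ k, s * μ k / l : ℕ) : ℤ) := by
      linarith
    exact_mod_cast h7

theorem BE1 (hR1 : GJ.R1_stmt) (hR4 : GJ.R4_stmt) (hR5 : GJ.R5_stmt) (hR6 : GJ.R6_stmt) (hYD0 : YD0_stmt)
    (h4 : YA4_stmt) : BE1_stmt := by
  classical
  intro K _ _ l n _ _ μ a _ z S hz
  have hlp : l.Prime := Fact.out
  have : NeZero l := ⟨hlp.ne_zero⟩
  obtain ⟨hz0, v, vi, hv, hvi, hvz, hviz⟩ := BE1_vals hR4 hR5 hYD0 h4 z S hz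
  have hμ : ∀ k, ¬ l ∣ μ k := fun k h =>
    absurd (Nat.le_of_dvd (Good.pos (K := K) (l := l) (μ := μ) (a := a) k) h)
      (not_le.2 (Good.lt (K := K) (l := l) (μ := μ) (a := a) k))
  have hM : ¬ l ∣ ∑ j, μ j := Good.inf (K := K) (l := l) (μ := μ) (a := a)
  obtain ⟨g, hg, -⟩ := hR1.1 K l n μ a z
  set T : Finset (Fin l) := Finset.univ.filter fun i => g i ≠ 0 with hT
  have hyu : IsUnit (CR.y : CR K l μ a) := CR.unit_y hlp.ne_zero
  have hy0 : (CR.y : CR K l μ a) ≠ 0 := hyu.ne_zero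
  have hTz : z = ∑ i ∈ T, ofB (g i) * CR.y ^ (i : ℕ) := by
    rw [hT]
    refine hg.trans (Finset.sum_filter_of_ne ?_).symm
    intro i _ hi h0
    rw [h0, map_zero, zero_mul] at hi
    exact hi rfl
  have hTne : T.Nonempty := by
    by_contra h
    rw [Finset.not_nonempty_iff_eq_empty] at h
    rw [h, Finset.sum_empty] at hTz
    exact hz0 hTz
  have hB0 : ∀ i ∈ T, (ofB (g i) : CR K l μ a) ≠ 0 := by
    intro i hi
    rw [hT, Finset.mem_filter] at hi
    rw [Ne, map_eq_zero_iff _ R7_ofB_inj]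
    exact hi.2
  have hf0 : ∀ i ∈ T, (ofB (g i) * CR.y ^ (i : ℕ) : CR K l μ a) ≠ 0 := fun i hi =>
    mul_ne_zero (hB0 i hi) (pow_ne_zero _ hy0)
  have ho : ∀ i ∈ T, ∃ (o : Fin (n + 1) → ℤ) (dg : ℤ), (∀ k, v k (ofB (g i)) = l * o k) ∧
      vi (ofB (g i)) = -(l * dg) := by
    intro i hi
    rw [hT, Finset.mem_filter] at hi
    obtain ⟨o, dg, e1, e2, -, -⟩ := hR6 K l n μ a v vi hv hvi (g i) hi.2
    exact ⟨o, dg, e1, e2⟩
  have hvk : ∀ k, ∀ i ∈ T, v k (ofB (g i) * CR.y ^ (i : ℕ)) = v k (ofB (g i)) + (i : ℕ) * (μ k : ℕ) := by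
    intro k i hi
    rw [(hv k).mul _ _ (hB0 i hi) (pow_ne_zero _ hy0), R7_pow (hv k) hy0, (hv k).aty]
  have hvinf : ∀ i ∈ T, vi (ofB (g i) * CR.y ^ (i : ℕ)) =
      vi (ofB (g i)) - (i : ℕ) * ((∑ j, μ j : ℕ) : ℤ) := by
    intro i hi
    rw [hvi.mul _ _ (hB0 i hi) (pow_ne_zero _ hy0), R7_pow hvi hy0, hvi.aty]
    ring
  have hmk : ∀ k, ∀ i ∈ T, 0 ≤ v k (ofB (g i)) + (i : ℕ) * (μ k : ℕ) := by
    intro k i hi
    have hd : ∀ i ∈ T, ∀ j ∈ T, v k (ofB (g i) * CR.y ^ (i : ℕ)) =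
        v k (ofB (g j) * CR.y ^ (j : ℕ)) → i = j := by
      intro i hi j hj hij
      obtain ⟨o, -, e1, -⟩ := ho i hi
      obtain ⟨o', -, e1', -⟩ := ho j hj
      rw [hvk k i hi, hvk k j hj, e1, e1'] at hij
      exact Fin.ext (R7_dvd (hμ k) i.2 j.2 hij)
    obtain ⟨-, h2, -⟩ := R7_sum (hv k) T (fun i => ofB (g i) * CR.y ^ (i : ℕ)) hf0 hd hTne
    have h3 := h2 i hi
    rw [← hTz, hvz, hvk k i hi] at h3
    exact h3
  have hminf : ∀ i ∈ T, -(Multiset.card S : ℤ) ≤ vi (ofB (g i)) - (i : ℕ) * ((∑ j, μ j : ℕ) : ℤ) := by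
    intro i hi
    have hd : ∀ i ∈ T, ∀ j ∈ T, vi (ofB (g i) * CR.y ^ (i : ℕ)) =
        vi (ofB (g j) * CR.y ^ (j : ℕ)) → i = j := by
      intro i hi j hj hij
      obtain ⟨-, dg, -, e2⟩ := ho i hi
      obtain ⟨-, dg', -, e2'⟩ := ho j hj
      rw [hvinf i hi, hvinf j hj, e2, e2'] at hij
      exact Fin.ext (R7_dvd hM i.2 j.2 (o := dg) (o' := dg') (by linarith))
    obtain ⟨-, h2, -⟩ := R7_sum hvi T (fun i => ofB (g i) * CR.y ^ (i : ℕ)) hf0 hd hTne
    have h3 := h2 i hi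
    rw [← hTz, hviz, hvinf i hi] at h3
    exact h3
  have hone : ∀ i : Fin l, ∃ γ : K[X], (g i) * algebraMap K[X] (BR K μ a) (fp K μ a) =
        algebraMap K[X] (BR K μ a) (γ * ∏ k, (X - C (a k)) ^ (μ k - (i : ℕ) * μ k / l)) ∧
      (γ = 0 ∨ l * γ.natDegree + (i : ℕ) * ∑ k, μ k ≤ Multiset.card S + l * ∑ k, (i : ℕ) * μ k / l) := by
    intro i
    by_cases hi : i ∈ T
    · have hgi : g i ≠ 0 := by
        rw [hT, Finset.mem_filter] at hi
        exact hi.2
      obtain ⟨γ, e1, e2⟩ := BE1_one v vi hv hvi (i : ℕ) i.2 (Multiset.card S) (g i) hgi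
        (fun k => hmk k i hi) (hminf i hi)
      exact ⟨γ, e1, Or.inr e2⟩
    · refine ⟨0, ?_, Or.inl rfl⟩
      have hgi : g i = 0 := by
        by_contra h
        exact hi (by rw [hT, Finset.mem_filter]; exact ⟨Finset.mem_univ _, h⟩)
      rw [hgi, zero_mul, zero_mul, map_zero]
  choose γ hγ1 hγ2 using hone
  refine ⟨γ, ⟨?_, hγ2⟩⟩
  rw [hg, Finset.sum_mul]
  refine Finset.sum_congr rfl fun i _ => ?_
  have h5 := congrArg (fun t => (ofB t : CR K l μ a)) (hγ1 i)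
  simp only [map_mul] at h5
  have h6 : (ofB (algebraMap K[X] (BR K μ a) (fp K μ a)) : CR K l μ a) = CR.pol (fp K μ a) := rfl
  have h7 : (ofB (g i) : CR K l μ a) * CR.pol (fp K μ a) =
      CR.pol (γ i * ∏ k, (X - C (a k)) ^ (μ k - (i : ℕ) * μ k / l)) := by
    rw [← h6, h5, map_mul]
    rfl
  rw [← h7]
  ring

end

end Pool.Agent.AQ
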