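import Pool.Agent.helper85.AQ.SpecB
import Pool.Agent.helper28.GJ.R7
import Pool.Agent.helper48.GJ.R6

/-!
# Project aq, row BE2: the norm of a function with an expansion
-/

set_option autoImplicit false

namespace Pool.Agent.AQ

open Polynomial Pool.Agent.HC Pool.Agent.HC.SJ Pool.Agent.SJ Pool.Agent.GJ Pool.Agent.TK Pool.Agent.CM
open Pool.Agent.TQJ Pool.Agent.TQG
open Pool.Agent.FJ (VT Om chiO rf rs IsFrobO)
open Pool.Agent.TD (zK DvK bC mK IsPhiK Stab)
open scoped TensorProduct NumberField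

noncomputable section

section val

variable {K : Type} [Field K] {l : ℕ} [Fact l.Prime] {n : ℕ} {μ : Fin (n + 1) → ℕ}
  {a : Fin (n + 1) → K} [Good K l μ a] {v : CR K l μ a → ℤ} {α : Fin (n + 1) → ℤ} {β : ℤ}

theorem BE2_nm (h : IsV v α β) (s : rootsOfUnity l K) (z : CR K l μ a) (hz : z ≠ 0) :
    v (nm s z) = l * v z := by
  have h1 : ∀ i : ℕ, (tau s)^[i] z ≠ 0 ∧ v ((tau s)^[i] z) = v z := by
    intro i
    induction i with
    | zero => exact ⟨hz, rfl⟩
    | succ i ih =>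
      rw [Function.iterate_succ_apply']
      refine ⟨?_, ?_⟩
      · rw [Ne, map_eq_zero_iff _ (tau s).injective]
        exact ih.1
      · have h2 : v (tau s ((tau s)^[i] z)) = v ((tau s)^[i] z) := h.aut _ _ s _
        rw [h2, ih.2]
  rw [nm, R7_prod h (Finset.range l) (fun i => (tau s)^[i] z) fun i _ => (h1 i).1,
    Finset.sum_congr rfl fun i _ => (h1 i).2, Finset.sum_const, Finset.card_range, nsmul_eq_mul]

omit [Fact (Nat.Prime l)] [Good K l μ a] in
/-- a lower bound for the values of all nonzero terms is one for the sum -/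
theorem BE2_sum (h : IsV v α β) {ι : Type} (T : Finset ι) (f : ι → CR K l μ a) (B : ℤ)
    (hf : ∀ i ∈ T, f i = 0 ∨ B ≤ v (f i)) : ∑ i ∈ T, f i = 0 ∨ B ≤ v (∑ i ∈ T, f i) := by
  classical
  induction T using Finset.induction_on with
  | empty => exact Or.inl Finset.sum_empty
  | insert j T hj ih =>
    rw [Finset.sum_insert hj]
    have h1 := hf j (Finset.mem_insert_self j T)
    have h2 := ih fun i hi => hf i (Finset.mem_insert_of_mem hi)
    by_cases e1 : f j = 0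
    · rw [e1, zero_add]
      exact h2
    by_cases e2 : ∑ i ∈ T, f i = 0
    · rw [e2, add_zero]
      exact h1
    by_cases e3 : f j + ∑ i ∈ T, f i = 0
    · exact Or.inl e3
    · have h3 := h.add _ _ e1 e2 e3
      have h4 := h1.resolve_left e1
      have h5 := h2.resolve_left e2
      exact Or.inr ((le_min h4 h5).trans h3)

end val

theorem BE2_vals {K : Type} [Field K] [IsAlgClosed K] {l n : ℕ} [Fact l.Prime]
    {μ : Fin (n + 1) → ℕ} {a : Fin (n + 1) → K} [Good K l μ a]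
    (v : Fin (n + 1) → CR K l μ a → ℤ) (vi : CR K l μ a → ℤ)
    (hv : ∀ k, IsV (v k) (fun j => if j = k then (l : ℤ) else 0) (μ k))
    (hvi : IsV vi (fun _ => -(l : ℤ)) (-((∑ j, μ j : ℕ) : ℤ))) (z : CR K l μ a) (hz : z ≠ 0) (D : ℕ)
    (γ : Fin l → K[X]) (hE : Ex D z γ) : (∀ k, 0 ≤ v k z) ∧ -(D : ℤ) ≤ vi z := by
  have hlp : l.Prime := Fact.out
  have hyu : IsUnit (CR.y : CR K l μ a) := CR.unit_y hlp.ne_zero
  have hy0 : (CR.y : CR K l μ a) ≠ 0 := hyu.ne_zero
  have hfp : (CR.pol (fp K μ a) : CR K l μ a) ≠ 0 := R6_pol_ne (fp_ne K μ a)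
  have hzf : z * CR.pol (fp K μ a) ≠ 0 := mul_ne_zero hz hfp
  have hle : ∀ (s : Fin l) (k : Fin (n + 1)), (s : ℕ) * μ k / l ≤ μ k := fun s k => by
    apply Nat.div_le_of_le_mul
    exact Nat.mul_le_mul_right _ s.2.le
  have hP0 : ∀ s : Fin l, (∏ k, (X - C (a k)) ^ (μ k - (s : ℕ) * μ k / l) : K[X]) ≠ 0 := fun s =>
    Finset.prod_ne_zero_iff.2 fun k _ => pow_ne_zero _ (X_sub_C_ne_zero _)
  refine ⟨?_, ?_⟩
  · intro k
    have h1 : ∑ s : Fin l, CR.pol (γ s * ∏ k, (X - C (a k)) ^ (μ k - (s : ℕ) * μ k / l)) * (CR.y : CR K l μ a) ^ (s : ℕ) = 0 ∨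
        (l : ℤ) * (μ k : ℕ) ≤ v k (∑ s : Fin l, CR.pol (γ s * ∏ k, (X - C (a k)) ^ (μ k - (s : ℕ) * μ k / l)) *
          (CR.y : CR K l μ a) ^ (s : ℕ)) := by
      refine BE2_sum (hv k) Finset.univ _ _ fun s _ => ?_
      by_cases hγ : γ s = 0
      · left
        rw [hγ, zero_mul, map_zero, zero_mul]
      · right
        have hne : γ s * ∏ k, (X - C (a k)) ^ (μ k - (s : ℕ) * μ k / l) ≠ 0 := mul_ne_zero hγ (hP0 s)
        rw [(hv k).mul _ _ (R6_pol_ne hne) (pow_ne_zero _ hy0), R7_pow (hv k) hy0, (hv k).aty,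
          R6_vk k (hv k) _ hne]
        have h2 : μ k - (s : ℕ) * μ k / l ≤
            (γ s * ∏ k, (X - C (a k)) ^ (μ k - (s : ℕ) * μ k / l)).rootMultiplicity (a k) := by
          rw [le_rootMultiplicity_iff hne]
          exact Dvd.dvd.mul_left (Finset.dvd_prod_of_mem (fun k => (X - C (a k) : K[X]) ^ (μ k - (s : ℕ) * μ k / l))
            (Finset.mem_univ k)) _
        have h3 : ((μ k - (s : ℕ) * μ k / l : ℕ) : ℤ) ≤
            ((γ s * ∏ k, (X - C (a k)) ^ (μ k - (s : ℕ) * μ k / l)).rootMultiplicity (a k) : ℤ) := by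
          exact_mod_cast h2
        rw [Nat.cast_sub (hle s k)] at h3
        have h4 : (l : ℤ) * (((s : ℕ) * μ k / l : ℕ) : ℤ) ≤ (s : ℕ) * (μ k : ℕ) := by
          exact_mod_cast Nat.mul_div_le ((s : ℕ) * μ k) l
        have h5 := mul_le_mul_of_nonneg_left h3 (Nat.cast_nonneg l : (0 : ℤ) ≤ l)
        rw [mul_sub] at h5
        linarith
    rw [← hE.eq] at h1
    have h2 := h1.resolve_left hzf
    rw [(hv k).mul _ _ hz hfp, R6_vk k (hv k) _ (fp_ne K μ a), rootMult (l := l) (μ := μ) (a := a) k] at h2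
    linarith
  · have h1 : ∑ s : Fin l, CR.pol (γ s * ∏ k, (X - C (a k)) ^ (μ k - (s : ℕ) * μ k / l)) * (CR.y : CR K l μ a) ^ (s : ℕ) = 0 ∨
        -(D : ℤ) - l * ((∑ k, μ k : ℕ) : ℤ) ≤
          vi (∑ s : Fin l, CR.pol (γ s * ∏ k, (X - C (a k)) ^ (μ k - (s : ℕ) * μ k / l)) *
          (CR.y : CR K l μ a) ^ (s : ℕ)) := by
      refine BE2_sum hvi Finset.univ _ _ fun s _ => ?_
      by_cases hγ : γ s = 0
      · left
        rw [hγ, zero_mul, map_zero, zero_mul]
      · right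
        have hne : γ s * ∏ k, (X - C (a k)) ^ (μ k - (s : ℕ) * μ k / l) ≠ 0 := mul_ne_zero hγ (hP0 s)
        rw [hvi.mul _ _ (R6_pol_ne hne) (pow_ne_zero _ hy0), R7_pow hvi hy0, hvi.aty,
          R6_vi hvi _ hne]
        have h2 : (γ s * ∏ k, (X - C (a k)) ^ (μ k - (s : ℕ) * μ k / l)).natDegree =
            (γ s).natDegree + ∑ k, (μ k - (s : ℕ) * μ k / l) := by
          rw [natDegree_mul hγ (hP0 s), natDegree_prod_of_monic _ _ fun j _ => (monic_X_sub_C (a j)).pow _]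
          simp only [natDegree_pow, natDegree_X_sub_C, mul_one]
        have h3 : ∑ k, (μ k - (s : ℕ) * μ k / l) + ∑ k, (s : ℕ) * μ k / l = ∑ k, μ k := by
          rw [← Finset.sum_add_distrib]
          exact Finset.sum_congr rfl fun k _ => Nat.sub_add_cancel (hle s k)
        have h4 := (hE.deg s).resolve_left hγ
        have h5 : ((l * (γ s).natDegree + (s : ℕ) * ∑ k, μ k : ℕ) : ℤ) ≤
            ((D + l * ∑ k, (s : ℕ) * μ k / l : ℕ) : ℤ) := by exact_mod_cast h4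
        have h6 : ((∑ k, (μ k - (s : ℕ) * μ k / l) + ∑ k, (s : ℕ) * μ k / l : ℕ) : ℤ) = ((∑ k, μ k : ℕ) : ℤ) := by
          rw [h3]
        rw [Nat.cast_add] at h6
        rw [Nat.cast_add, Nat.cast_mul, Nat.cast_mul, Nat.cast_add, Nat.cast_mul] at h5
        rw [h2, Nat.cast_add]
        have h7 : (l : ℤ) * ((∑ k, (μ k - (s : ℕ) * μ k / l) : ℕ) : ℤ) =
            l * ((∑ k, μ k : ℕ) : ℤ) - l * ((∑ k, (s : ℕ) * μ k / l : ℕ) : ℤ) := by
          rw [← h6]
          ring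
        rw [mul_add, h7, mul_neg]
        linarith
    rw [← hE.eq] at h1
    have h2 := h1.resolve_left hzf
    have h5 : (fp K μ a).natDegree = ∑ j, μ j := by
      rw [fp, natDegree_prod_of_monic _ _ fun j _ => (monic_X_sub_C (a j)).pow (μ j)]
      simp only [natDegree_pow, natDegree_X_sub_C, mul_one]
    rw [hvi.mul _ _ hz hfp, R6_vi hvi _ (fp_ne K μ a), h5] at h2
    linarith

theorem BE2 (hR4 : GJ.R4_stmt) (hR5 : GJ.R5_stmt) (hR6 : GJ.R6_stmt) (hYD0 : YD0_stmt) : BE2_stmt := by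
  classical
  intro K _ _ l n _ _ μ a _ z D γ hE
  have hlp : l.Prime := Fact.out
  have : NeZero l := ⟨hlp.ne_zero⟩
  have hm : (gp K l μ a).Monic := gp_monic K l μ a
  have : Module.Free (BR K μ a) (CR K l μ a) :=
    Module.Free.of_basis (AdjoinRoot.powerBasis' hm).basis
  have : Module.Finite (BR K μ a) (CR K l μ a) := (AdjoinRoot.powerBasis' hm).finite
  by_cases hz : z = 0
  · refine ⟨0, by rw [natDegree_zero]; exact Nat.zero_le _, ?_⟩
    rw [hz]
    exact (Algebra.norm_eq_zero_iff.mpr rfl).trans (map_zero _).symm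
  obtain ⟨ζ, hζ⟩ : ∃ ζ : K, IsPrimitiveRoot ζ l := HasEnoughRootsOfUnity.exists_primitiveRoot K l
  set s : rootsOfUnity l K := hζ.toRootsOfUnity with hs
  have hsζ : ((s : Kˣ) : K) = ζ := hζ.val_toRootsOfUnity_coe
  have hprim : Prim s := by
    show IsPrimitiveRoot ((s : Kˣ) : K) l
    rw [hsζ]; exact hζ
  choose v lc w0 hL using fun k => hR4 K l n μ a k
  obtain ⟨vi, hvi⟩ := hR5 K l n μ a
  have hv : ∀ k, IsV (v k) (fun j => if j = k then (l : ℤ) else 0) (μ k) := fun k => (hL k).val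
  obtain ⟨hk, hi⟩ := BE2_vals v vi hv hvi z hz D γ hE
  obtain ⟨g, hg⟩ : ∃ g : BR K μ a, g = Algebra.norm (BR K μ a) z := ⟨_, rfl⟩
  have hg0 : g ≠ 0 := by
    rw [hg]
    intro h
    exact hz (Algebra.norm_eq_zero_iff.mp h)
  have hnm : (ofB g : CR K l μ a) = nm s z := by
    rw [hg]
    exact hYD0 K l n μ a s hprim z
  have hofB : (ofB g : CR K l μ a) ≠ 0 := by
    rw [Ne, map_eq_zero_iff _ R7_ofB_inj]
    exact hg0
  obtain ⟨N, p, hp⟩ : ∃ (N : ℕ) (p : K[X]), g * algebraMap K[X] (BR K μ a) (fp K μ a ^ N) =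
      algebraMap K[X] (BR K μ a) p := by
    obtain ⟨N, p, hp⟩ := IsLocalization.Away.surj (S := BR K μ a) (fp K μ a) g
    exact ⟨N, p, by rw [map_pow, hp]⟩
  have hB0 : ∀ q : K[X], q ≠ 0 → algebraMap K[X] (BR K μ a) q ≠ 0 := fun q hq h =>
    hq (BR_inj K μ a (h.trans (map_zero _).symm))
  have hp0 : p ≠ 0 := by
    intro h
    rw [h, map_zero] at hp
    rcases mul_eq_zero.1 hp with h3 | h3
    · exact hg0 h3
    · exact hB0 _ (pow_ne_zero _ (fp_ne K μ a)) h3
  have hpolf : (CR.pol (fp K μ a ^ N) : CR K l μ a) ≠ 0 := R6_pol_ne (pow_ne_zero _ (fp_ne K μ a))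
  have hCR : (ofB g : CR K l μ a) * CR.pol (fp K μ a ^ N) = CR.pol p := by
    have h3 := congrArg (fun t => (ofB t : CR K l μ a)) hp
    simp only [map_mul] at h3
    exact h3
  have hl0 : (0 : ℤ) < l := by exact_mod_cast hlp.pos
  have hmul : ∀ k, N * μ k ≤ p.rootMultiplicity (a k) := by
    intro k
    have h3 := congrArg (v k) hCR
    rw [(hv k).mul _ _ hofB hpolf, R6_vk k (hv k) _ (pow_ne_zero _ (fp_ne K μ a)), R6_vk k (hv k) _ hp0,
      hnm, BE2_nm (hv k) s z hz] at h3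
    have h5 : (fp K μ a ^ N).rootMultiplicity (a k) = N * μ k := by
      rw [← rootMult (l := l) (μ := μ) (a := a) k]
      rw [← count_roots, ← count_roots, roots_pow, Multiset.count_nsmul]
    rw [h5, ← mul_add] at h3
    have h6 := mul_left_cancel₀ hl0.ne' h3
    have h7 : ((N * μ k : ℕ) : ℤ) ≤ (p.rootMultiplicity (a k) : ℤ) := by
      rw [← h6]
      linarith [hk k]
    exact_mod_cast h7
  obtain ⟨R, hR⟩ := R6_dvd a (Good.inj (K := K) (l := l) (μ := μ) (a := a)) p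
    (fun k => N * μ k)
    (fun k => (pow_dvd_pow _ (hmul k)).trans (pow_rootMultiplicity_dvd p (a k)))
  have hprod : ∏ k, (X - C (a k)) ^ (N * μ k) = fp K μ a ^ N := by
    rw [fp, ← Finset.prod_pow]
    refine Finset.prod_congr rfl fun k _ => ?_
    rw [← pow_mul, mul_comm]
  rw [hprod] at hR
  have hR0 : R ≠ 0 := by
    intro h
    rw [h, mul_zero] at hR
    exact hp0 hR
  have hgR : g = algebraMap K[X] (BR K μ a) R := by
    refine mul_right_cancel₀ (hB0 _ (pow_ne_zero N (fp_ne K μ a))) ?_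
    rw [hp, hR, map_mul, mul_comm]
  refine ⟨R, ?_, by rw [← hg, hgR]⟩
  have h8 : (ofB g : CR K l μ a) = CR.pol R := by
    rw [hgR]
    rfl
  have h9 := R6_vi hvi R hR0
  rw [← h8, hnm, BE2_nm hvi s z hz] at h9
  have h10 : (R.natDegree : ℤ) ≤ D := by
    have h11 : (l : ℤ) * (vi z + (R.natDegree : ℤ)) = 0 := by
      rw [mul_add, h9]
      ring
    rcases mul_eq_zero.1 h11 with h12 | h12
    · exact absurd h12 hl0.ne'
    · linarith
  exact_mod_cast h10

end

end Pool.Agent.AQ
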