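import Pool.Agent.helper85.AQ.SpecB

/-!
# Project aq, row BGP: the action on the Tate modules of the automorphisms which permute the branch points
-/

set_option autoImplicit false

namespace Pool.Agent.AQ

open Polynomial Pool.Agent.HC Pool.Agent.HC.SJ Pool.Agent.SJ Pool.Agent.GJ Pool.Agent.TK Pool.Agent.CM
open Pool.Agent.TQJ Pool.Agent.TQG
open Pool.Agent.FJ (VT Om chiO rf rs IsFrobO)
open Pool.Agent.TD (zK DvK bC mK IsPhiK Stab)
open scoped TensorProduct NumberField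

noncomputable section

/-- homomorphisms which agree on the classes of points are equal -/
theorem BGP_ext (h7 : KA7_stmt) {K : Type} [Field K] [IsAlgClosed K] {l n : ℕ} [Fact l.Prime] [NeZero (l : K)]
    {μ : Fin (n + 1) → ℕ} {a : Fin (n + 1) → K} [Good K l μ a] [IsDedekindDomain (CR K l μ a)] {M : Type}
    [CommMonoid M] (E E' : ClassGroup (CR K l μ a) →* M) (h : ∀ q : Pc K l μ a, E (cl q) = E' (cl q))
    (C : ClassGroup (CR K l μ a)) : E C = E' C := by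
  obtain ⟨S, rfl⟩ := (h7 K l n μ a).2.1 C
  rw [map_multiset_prod, map_multiset_prod, Multiset.map_map, Multiset.map_map]
  exact congrArg _ (Multiset.map_congr rfl fun q _ => h q)

theorem BGP_isQ {K : Type} [Field K] {l n : ℕ} {μ : Fin (n + 1) → ℕ} {a : Fin (n + 1) → K} {σ : K ≃+* K}
    {π : Equiv.Perm (Fin (n + 1))} (h : IsP σ μ a a π) (d : K) (hd : d ^ l = 1) : IsQ l μ a a σ 1 0 d π :=
  ⟨one_ne_zero, fun j => by rw [one_mul, add_zero, h.pt], h.wt, by rw [hd, one_pow]⟩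

theorem BGP_one {l : ℕ} [Fact l.Prime] (D : Dat l) : PF D 1 :=
  ⟨fun _ _ => rfl, fun _ => ⟨1, fun _ => rfl, fun _ => rfl⟩⟩

theorem BGP_mul {l : ℕ} [Fact l.Prime] (D : Dat l) (σ τ : Om ≃+* Om) (h1 : PF D σ) (h2 : PF D τ) :
    PF D (σ * τ) := by
  refine ⟨fun s hs => ?_, fun i => ?_⟩
  · show σ (τ s) = s
    rw [h2.1 s hs, h1.1 s hs]
  · obtain ⟨π, hπ⟩ := h1.2 i
    obtain ⟨ρ, hρ⟩ := h2.2 i
    refine ⟨π * ρ, fun j => ?_, fun j => ?_⟩
    · show σ (τ (D.a i j)) = D.a i (π (ρ j))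
      rw [hρ.pt, hπ.pt]
    · show D.μ i (π (ρ j)) = D.μ i j
      rw [hπ.wt, hρ.wt]

theorem BGP_inv {l : ℕ} [Fact l.Prime] (D : Dat l) (σ : Om ≃+* Om) (h : PF D σ) : PF D σ⁻¹ := by
  refine ⟨fun s hs => ?_, fun i => ?_⟩
  · show σ.symm s = s
    rw [RingEquiv.symm_apply_eq, h.1 s hs]
  · obtain ⟨π, hπ⟩ := h.2 i
    exact ⟨π.symm, hπ.symm⟩

theorem BGP (hBT1 : BT1_stmt) (hBT2 : BT2_stmt) (hBT3 : BT3_stmt) (h7 : KA7_stmt) (h4 : KA4_stmt) : BGP_stmt := by
  intro l q _ _ D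
  refine ⟨BGP_one D, BGP_mul D, fun σ => BGP_inv D σ, fun i => ?_⟩
  have hl : l.Prime := Fact.out
  have : NeZero (l : Om) := ⟨Nat.cast_ne_zero.2 hl.ne_zero⟩
  have hdd : IsDedekindDomain (CR Om l (D.μ i) (D.a i)) := h4 Om l (D.n i) (D.μ i) (D.a i)
  have hT : ∀ (σ : Om ≃+* Om) (h : PF D σ), IsT σ 1 0 1
      (ClassGroup.mulEquiv (autP (l := l) σ (h.2 i).choose_spec)).toMonoidHom := fun σ h =>
    (hBT3 Om l (D.n i) (D.μ i) (D.a i) σ).1 _ (h.2 i).choose_spec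
  have hpt : ∀ (σ : Om ≃+* Om) (_ : PF D σ) (d : Om) (_ : d ^ l = 1) (q : Pc Om l (D.μ i) (D.a i)),
      ∃ q' : Pc Om l (D.μ i) (D.a i), q'.1.1 = 1 * σ q.1.1 + 0 ∧ q'.1.2 = d * σ q.1.2 := fun σ h d hd q =>
    (hBT1 Om Om l (D.n i) (D.μ i) (D.a i) (D.a i) σ 1 0 d _ (BGP_isQ (h.2 i).choose_spec d hd)).2 q
  refine ⟨?_, ?_, ?_, ?_, ?_⟩
  · intro σ τ h1 h2 h3 v
    apply VT.ext
    intro x
    have hT3 := hT (σ * τ) h3
    have key := hBT2 Om Om Om l (D.n i) (D.μ i) (D.a i) (D.a i) (D.a i) τ 1 0 1 (h2.2 i).choose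
      σ 1 0 1 (h1.2 i).choose _ _
      (ClassGroup.mulEquiv (autP (l := l) (σ * τ) (h3.2 i).choose_spec)).toMonoidHom
      (BGP_isQ (h2.2 i).choose_spec 1 (one_pow l))
      (BGP_isQ (h1.2 i).choose_spec 1 (one_pow l)) (hT τ h2) (hT σ h1) (by
        rw [map_one, map_zero, mul_one, mul_zero, zero_add]
        exact hT3) (Additive.toMul (v.val x))
    exact congrArg Additive.ofMul key.symm
  · intro h v
    apply VT.ext
    intro x
    have key := BGP_ext h7 (ClassGroup.mulEquiv (autP (l := l) 1 (h.2 i).choose_spec)).toMonoidHom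
      (MonoidHom.id _) (fun q' => hT 1 h q' q' (by
        show q'.1.1 = 1 * q'.1.1 + 0
        ring) (by
        show q'.1.2 = 1 * q'.1.2
        ring)) (Additive.toMul (v.val x))
    exact congrArg Additive.ofMul key
  · intro σ h h' v
    apply VT.ext
    intro x
    have hA := (hBT3 Om l (D.n i) (D.μ i) (D.a i) σ).2 (h' i) 1
    have key := BGP_ext h7 (ClassGroup.mulEquiv (autP (l := l) σ (h.2 i).choose_spec)).toMonoidHom
      (ClassGroup.mulEquiv (CR.aut σ (h' i) 1 : CR Om l (D.μ i) (D.a i) ≃+* CR Om l (D.μ i) (D.a i))).toMonoidHom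
      (fun q => by
        obtain ⟨q', e1, e2⟩ := hpt σ h 1 (one_pow l) q
        rw [hT σ h q q' e1 e2]
        refine (hA q q' e1 ?_).symm
        rw [e2, inv_one]
        simp) (Additive.toMul (v.val x))
    exact congrArg Additive.ofMul key
  · intro σ h s v
    apply VT.ext
    intro x
    have hS := (hBT3 Om l (D.n i) (D.μ i) (D.a i) (RingEquiv.refl Om)).2 (fun _ => rfl) s
    obtain ⟨d, hd⟩ : ∃ d : Om, d = (((s⁻¹ : rootsOfUnity l Om) : Omˣ) : Om) := ⟨_, rfl⟩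
    have hdl : d ^ l = 1 := by
      rw [hd]
      have h1 : ((s⁻¹ : rootsOfUnity l Om) : Omˣ) ^ l = 1 := (s⁻¹ : rootsOfUnity l Om).2
      rw [← Units.val_pow_eq_pow_val, h1, Units.val_one]
    rw [← hd] at hS
    have key := BGP_ext h7 ((ClassGroup.mulEquiv (autP (l := l) σ (h.2 i).choose_spec)).toMonoidHom.comp
        (ClassGroup.mulEquiv (CR.aut (RingEquiv.refl Om) (fun _ => rfl) s :
          CR Om l (D.μ i) (D.a i) ≃+* CR Om l (D.μ i) (D.a i))).toMonoidHom)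
      ((ClassGroup.mulEquiv (CR.aut (RingEquiv.refl Om) (fun _ => rfl) s :
          CR Om l (D.μ i) (D.a i) ≃+* CR Om l (D.μ i) (D.a i))).toMonoidHom.comp
        (ClassGroup.mulEquiv (autP (l := l) σ (h.2 i).choose_spec)).toMonoidHom)
      (fun q => by
        obtain ⟨q1, e1, e2⟩ := hpt 1 (BGP_one D) d hdl q
        obtain ⟨q2, e3, e4⟩ := hpt σ h 1 (one_pow l) q1
        obtain ⟨q3, e5, e6⟩ := hpt σ h 1 (one_pow l) q
        rw [MonoidHom.comp_apply, MonoidHom.comp_apply, hS q q1 e1 e2, hT σ h q1 q2 e3 e4, hT σ h q q3 e5 e6]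
        refine (hS q3 q2 ?_ ?_).symm
        · rw [e3, e1, e5]
          show 1 * σ (1 * q.1.1 + 0) + 0 = 1 * (1 * σ q.1.1 + 0) + 0
          ring_nf
        · rw [e4, e2, e6]
          show 1 * σ (d * q.1.2) = d * (1 * σ q.1.2)
          rw [map_mul, h.1 d hdl]
          ring) (Additive.toMul (v.val x))
    exact congrArg Additive.ofMul key
  · intro σ h v hv x
    have h1 := hv x
    show actP σ (h.2 i).choose_spec (v.val (x : ℚ_[q])) = 0
    rw [h1, map_zero]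

end

end Pool.Agent.AQ
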